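import Mathlib

/-!
# Project SF (MP_d5570f_nt), piece SF-7: the numbers
-/

open Finset

namespace Pool.Agent.Helper94.SF

/-- From a bound for all `z` with `z ^ 11 * log N ≤ N` to the final bound. -/
theorem numerics (T : ℕ → ℝ) (h0 : ∀ N, T N ≤ (N : ℝ) ^ 2)
    (C₁ : ℝ) (z₀ : ℕ)
    (h : ∀ N z : ℕ, z₀ ≤ z → (z : ℝ) ^ 11 * Real.log N ≤ N → z ≤ N →
      T N ≤ C₁ * (N : ℝ) ^ 2 * Real.log N ^ 4 / (z : ℝ) ^ 6) :
    ∃ C : ℝ, 0 < C ∧ ∀ N : ℕ, 2 ≤ N →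
      T N ≤ C * (N : ℝ) ^ (16 / 11 : ℝ) * Real.log N ^ (50 / 11 : ℝ) := by
  set z₁ : ℕ := max z₀ 1 with hz₁
  have hz₁1 : 1 ≤ z₁ := le_max_right _ _
  have hz₁r : (1 : ℝ) ≤ (z₁ : ℝ) := by exact_mod_cast hz₁1
  refine ⟨64 * |C₁| + 16 * (z₁ : ℝ) ^ 6, by positivity, ?_⟩
  intro N hN
  have hNr : (2 : ℝ) ≤ (N : ℝ) := by exact_mod_cast hN
  have hN0 : (0 : ℝ) < (N : ℝ) := by linarith
  set L : ℝ := Real.log N with hL
  have hLhalf : (1 / 2 : ℝ) ≤ L := by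
    have h1 : Real.log 2 ≤ L := Real.log_le_log (by norm_num) hNr
    have h2 := Real.log_two_gt_d9
    linarith
  have hL0 : 0 < L := by linarith
  set q : ℝ := (N : ℝ) / L with hq
  have hq0 : 0 < q := div_pos hN0 hL0
  set y : ℝ := q ^ (1 / 11 : ℝ) with hy
  have hy0 : 0 < y := Real.rpow_pos_of_pos hq0 _
  have hy11 : y ^ 11 = q := by
    rw [hy, ← Real.rpow_natCast, ← Real.rpow_mul hq0.le]
    norm_num
  have hy6 : y ^ 6 = q ^ (6 / 11 : ℝ) := by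
    rw [hy, ← Real.rpow_natCast, ← Real.rpow_mul hq0.le]
    norm_num
  have hq6 : q ^ (6 / 11 : ℝ) = (N : ℝ) ^ (6 / 11 : ℝ) / L ^ (6 / 11 : ℝ) :=
    Real.div_rpow hN0.le hL0.le _
  have hN611 : 0 < (N : ℝ) ^ (6 / 11 : ℝ) := Real.rpow_pos_of_pos hN0 _
  have hL611 : 0 < L ^ (6 / 11 : ℝ) := Real.rpow_pos_of_pos hL0 _
  have hN1611 : 0 < (N : ℝ) ^ (16 / 11 : ℝ) := Real.rpow_pos_of_pos hN0 _
  have hL5011 : 0 < L ^ (50 / 11 : ℝ) := Real.rpow_pos_of_pos hL0 _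
  have hNsq : (N : ℝ) ^ 2 = (N : ℝ) ^ (16 / 11 : ℝ) * (N : ℝ) ^ (6 / 11 : ℝ) := by
    rw [← Real.rpow_natCast, ← Real.rpow_add hN0]
    norm_num
  have hLpow : L ^ (50 / 11 : ℝ) = L ^ 4 * L ^ (6 / 11 : ℝ) := by
    rw [← Real.rpow_natCast L 4, ← Real.rpow_add hL0]
    norm_num
  set z : ℕ := ⌊y⌋₊ with hz
  have hzy : (z : ℝ) ≤ y := Nat.floor_le hy0.le
  have hyz : y < (z : ℝ) + 1 := Nat.lt_floor_add_one y
  by_cases hcase : z₁ ≤ z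
  · have hz0 : z₀ ≤ z := le_trans (le_max_left _ _) hcase
    have hz1 : 1 ≤ z := le_trans hz₁1 hcase
    have hz1r : (1 : ℝ) ≤ (z : ℝ) := by exact_mod_cast hz1
    have hz11 : (z : ℝ) ^ 11 ≤ q := by
      rw [← hy11]
      exact pow_le_pow_left₀ (by positivity) hzy 11
    have hA : (z : ℝ) ^ 11 * Real.log N ≤ N := by
      have := mul_le_mul_of_nonneg_right hz11 hL0.le
      rw [hq, div_mul_cancel₀ _ hL0.ne'] at this
      exact this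
    have hB : z ≤ N := by
      rcases Nat.lt_or_ge z 2 with h2 | h2
      · omega
      · have h2r : (2 : ℝ) ≤ (z : ℝ) := by exact_mod_cast h2
        have h10 : (2 : ℝ) ^ 10 ≤ (z : ℝ) ^ 10 := pow_le_pow_left₀ (by norm_num) h2r 10
        have h3 : (z : ℝ) * 2 ≤ (z : ℝ) ^ 11 := by
          have : (z : ℝ) ^ 11 = z * (z : ℝ) ^ 10 := by ring
          rw [this]
          apply mul_le_mul_of_nonneg_left _ (by positivity)
          linarith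
        have h4 : (z : ℝ) ^ 11 * (1 / 2) ≤ N := by
          refine le_trans ?_ hA
          exact mul_le_mul_of_nonneg_left hLhalf (by positivity)
        have h5 : (z : ℝ) ≤ N := by linarith
        exact_mod_cast h5
    have hT := h N z hz0 hA hB
    rw [← hL] at hT
    have hy2z : y ≤ 2 * (z : ℝ) := by linarith
    have hy6z : y ^ 6 ≤ 64 * (z : ℝ) ^ 6 := by
      have := pow_le_pow_left₀ hy0.le hy2z 6
      calc y ^ 6 ≤ (2 * (z : ℝ)) ^ 6 := this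
        _ = 64 * (z : ℝ) ^ 6 := by ring
    have hz6 : 0 < (z : ℝ) ^ 6 := by positivity
    have hy6pos : 0 < y ^ 6 := by positivity
    -- 1 / z^6 ≤ 64 / y^6
    have hinv : 1 / (z : ℝ) ^ 6 ≤ 64 / y ^ 6 := by
      rw [div_le_div_iff₀ hz6 hy6pos]
      linarith
    have hcalc : C₁ * (N : ℝ) ^ 2 * L ^ 4 / (z : ℝ) ^ 6
        ≤ 64 * |C₁| * (N : ℝ) ^ (16 / 11 : ℝ) * L ^ (50 / 11 : ℝ) := by
      calc C₁ * (N : ℝ) ^ 2 * L ^ 4 / (z : ℝ) ^ 6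
          = C₁ * ((N : ℝ) ^ 2 * L ^ 4 * (1 / (z : ℝ) ^ 6)) := by ring
        _ ≤ |C₁| * ((N : ℝ) ^ 2 * L ^ 4 * (1 / (z : ℝ) ^ 6)) := by
            apply mul_le_mul_of_nonneg_right (le_abs_self _) (by positivity)
        _ ≤ |C₁| * ((N : ℝ) ^ 2 * L ^ 4 * (64 / y ^ 6)) := by
            apply mul_le_mul_of_nonneg_left _ (abs_nonneg _)
            apply mul_le_mul_of_nonneg_left hinv (by positivity)
        _ = 64 * |C₁| * (N : ℝ) ^ (16 / 11 : ℝ) * L ^ (50 / 11 : ℝ) := by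
            rw [hy6, hq6, hNsq, hLpow]
            field_simp
    calc T N ≤ C₁ * (N : ℝ) ^ 2 * L ^ 4 / (z : ℝ) ^ 6 := hT
      _ ≤ 64 * |C₁| * (N : ℝ) ^ (16 / 11 : ℝ) * L ^ (50 / 11 : ℝ) := hcalc
      _ ≤ (64 * |C₁| + 16 * (z₁ : ℝ) ^ 6) * (N : ℝ) ^ (16 / 11 : ℝ) * L ^ (50 / 11 : ℝ) := by
          apply mul_le_mul_of_nonneg_right _ hL5011.le
          apply mul_le_mul_of_nonneg_right _ hN1611.le
          have : (0 : ℝ) ≤ 16 * (z₁ : ℝ) ^ 6 := by positivity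
          linarith
  · push Not at hcase
    have hzz : z + 1 ≤ z₁ := hcase
    have hzzr : (z : ℝ) + 1 ≤ (z₁ : ℝ) := by exact_mod_cast hzz
    have hyz1 : y ≤ (z₁ : ℝ) := by linarith
    have hy6z1 : y ^ 6 ≤ (z₁ : ℝ) ^ 6 := pow_le_pow_left₀ hy0.le hyz1 6
    have hN6 : (N : ℝ) ^ (6 / 11 : ℝ) ≤ (z₁ : ℝ) ^ 6 * L ^ (6 / 11 : ℝ) := by
      rw [hy6, hq6, div_le_iff₀ hL611] at hy6z1
      exact hy6z1
    have hL4 : (1 : ℝ) ≤ 16 * L ^ 4 := by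
      have := pow_le_pow_left₀ (by norm_num) hLhalf 4
      norm_num at this ⊢
      linarith
    calc T N ≤ (N : ℝ) ^ 2 := h0 N
      _ = (N : ℝ) ^ (16 / 11 : ℝ) * (N : ℝ) ^ (6 / 11 : ℝ) := hNsq
      _ ≤ (N : ℝ) ^ (16 / 11 : ℝ) * ((z₁ : ℝ) ^ 6 * L ^ (6 / 11 : ℝ)) :=
          mul_le_mul_of_nonneg_left hN6 hN1611.le
      _ = 1 * ((z₁ : ℝ) ^ 6 * (N : ℝ) ^ (16 / 11 : ℝ) * L ^ (6 / 11 : ℝ)) := by ring
      _ ≤ (16 * L ^ 4) * ((z₁ : ℝ) ^ 6 * (N : ℝ) ^ (16 / 11 : ℝ) * L ^ (6 / 11 : ℝ)) := by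
          apply mul_le_mul_of_nonneg_right hL4 (by positivity)
      _ = 16 * (z₁ : ℝ) ^ 6 * (N : ℝ) ^ (16 / 11 : ℝ) * L ^ (50 / 11 : ℝ) := by
          rw [hLpow]; ring
      _ ≤ (64 * |C₁| + 16 * (z₁ : ℝ) ^ 6) * (N : ℝ) ^ (16 / 11 : ℝ) * L ^ (50 / 11 : ℝ) := by
          apply mul_le_mul_of_nonneg_right _ hL5011.le
          apply mul_le_mul_of_nonneg_right _ hN1611.le
          have : (0 : ℝ) ≤ 64 * |C₁| := by positivity
          linarith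

end Pool.Agent.Helper94.SF
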